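import Pool.Agent.U845.XM.Stm
import Pool.Agent.N848.Q.H

/-!
# Project XM, package DUA: the Selmer group of the dual isogeny

A class `d` in the Selmer group of `Y² = X (X² + 82 n X + 81 n²)` is a divisor of `n`, up to the
sign, and the conditions at the primes dividing `n` and at `2` say that the factorization
`-n = d b` is one which the Rédei system excludes, unless `d = 1` or `b = 1`.
-/

set_option autoImplicit false
set_option linter.unusedSectionVars false

open scoped Classical

namespace Pool.Agent.U200.XM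

open Finset
open Pool.Agent.U115.GE (SelSet)
open Pool.Agent.N916.GB (Po sy Vt Gd z2 z2_add_self sum_uu)
open Pool.Agent.N973.ND (uu)
open Pool.Agent.Y703.CQ (nr)
open Pool.Agent.N848.Q (ns ns_zero Dl Crit Cd eq_prod_star prod_star_sign row_eq
  crit_neg_of_Gd star_dvd_prod mem_Vt)
open Pool.Agent.U845.XM (Nc Par S_LOC S_A S_B S_C S_DUA)

section data

variable {n : ℕ} {t : Bool} {r s : ZMod 2}

lemma po_of (hn2 : n % 2 = 1) : ∀ p ∈ n.primeFactors, Po p := by
  intro p hp
  refine ⟨Nat.prime_of_mem_primeFactors hp, ?_⟩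
  rintro rfl
  have := Nat.dvd_of_mem_primeFactors hp
  omega

lemma odd_of (h4 : n % 4 = if s = 0 then 3 else 1) : n % 2 = 1 := by
  split_ifs at h4 <;> omega

lemma uu_of (hn : Squarefree n) (h4 : n % 4 = if s = 0 then 3 else 1) :
    ∑ p ∈ n.primeFactors, uu p = 1 + s := by
  have h1 := sum_uu n.primeFactors (po_of (odd_of h4))
  rw [Nat.prod_primeFactors_of_squarefree hn, h4] at h1
  rcases z2 s with hs | hs <;> rcases z2 (∑ p ∈ n.primeFactors, uu p) with hu | hu <;>
    rw [hs, hu] at h1 ⊢ <;> first | decide | (exfalso; revert h1; decide)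

lemma star_of (hn : Squarefree n) (h4 : n % 4 = if s = 0 then 3 else 1) :
    ∏ p ∈ n.primeFactors, N848.Q.star p = if s = 0 then -(n : ℤ) else n := by
  have h2 : ∏ p ∈ n.primeFactors, (p : ℤ) = n := by
    rw [← Nat.cast_prod, Nat.prod_primeFactors_of_squarefree hn]
  rw [prod_star_sign, uu_of hn h4, h2]
  rcases z2 s with hs | hs <;> rw [hs]
  · rw [if_neg (by decide), if_pos rfl]; ring
  · rw [if_pos (by decide), if_neg (by decide)]; ring

lemma M_of (hn : Squarefree n) (h4 : n % 4 = if s = 0 then 3 else 1) :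
    Dl r s * ∏ p ∈ n.primeFactors, N848.Q.star p = -(((if r = 1 then 2 * n else n : ℕ)) : ℤ) := by
  rw [star_of hn h4]
  unfold Dl
  rcases z2 r with hr | hr <;> rcases z2 s with hs | hs <;> rw [hr, hs]
  · rw [if_neg (by decide), if_neg (by decide), if_pos rfl, if_neg (by decide)]; ring
  · rw [if_neg (by decide), if_pos rfl, if_neg (by decide), if_neg (by decide)]; ring
  · rw [if_pos rfl, if_neg (by decide), if_pos rfl, if_pos rfl]; push_cast; ring
  · rw [if_pos rfl, if_pos rfl, if_neg (by decide), if_pos rfl]; push_cast; ring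

end data

/-- the conditions at the primes dividing `n` -/
def Ql (n : ℕ) (d : ℤ) : Prop := ∀ l : ℕ, l.Prime → l ∣ n →
  (¬ (l : ℤ) ∣ d → IsSquare (d : ZMod l)) ∧
    ∀ d1 n1 : ℤ, d = l * d1 → (n : ℤ) = l * n1 → IsSquare ((-(d1 * n1) : ℤ) : ZMod l)

lemma cd_of {n : ℕ} (hn : Squarefree n) {d b : ℤ} (hdb : -(n : ℤ) = d * b) (hl : Ql n d) :
    Cd d b := by
  intro q hq hq2
  have hns : Squarefree (n : ℤ) := Int.squarefree_natCast.2 hn
  have hqp : Prime (q : ℤ) := Nat.prime_iff_prime_int.1 hq
  have hn' : (n : ℤ) = -(d * b) := by rw [← hdb, neg_neg]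
  constructor
  · intro hb
    have hqn : q ∣ n := by
      have h1 : (q : ℤ) ∣ n := by
        rw [hn', dvd_neg]
        exact hb.mul_left _
      exact Int.natCast_dvd_natCast.1 h1
    refine (hl q hq hqn).1 fun h => ?_
    have h1 : (q : ℤ) * q ∣ n := by
      rw [hn', dvd_neg]
      exact mul_dvd_mul h hb
    exact hqp.not_isUnit (hns _ h1)
  · intro hd
    have hqn : q ∣ n := by
      have h1 : (q : ℤ) ∣ n := by
        rw [hn', dvd_neg]
        exact hd.mul_right _
      exact Int.natCast_dvd_natCast.1 h1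
    obtain ⟨d1, hd1⟩ := hd
    have h2 := (hl q hq hqn).2 d1 (-(d1 * b)) hd1 (by rw [hn', hd1]; ring)
    have hd1q : ¬ (q : ℤ) ∣ d1 := by
      rintro ⟨u, hu⟩
      have h1 : (q : ℤ) * q ∣ n := ⟨-(u * b), by rw [hn', hd1, hu]; ring⟩
      exact hqp.not_isUnit (hns _ h1)
    have : Fact q.Prime := ⟨hq⟩
    have h3 : (d1 : ZMod q) ≠ 0 := by rwa [Ne, ZMod.intCast_zmod_eq_zero_iff_dvd]
    obtain ⟨y, hy⟩ := h2
    refine ⟨y / d1, ?_⟩
    push_cast at hy
    field_simp
    linear_combination hy

lemma core {n : ℕ} {t : Bool} {r s : ZMod 2} {m : ℕ} (hn : Squarefree n) (hP : Par n t r s m)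
    (hG : Gd t r s m.primeFactors) {d : ℤ} (hsq : Squarefree d)
    (hpr : ∀ q : ℕ, q.Prime → (q : ℤ) ∣ d → q ∣ n) (hl : Ql n d)
    (h2o : n % 2 = 1 → d % 8 = 1 ∨ (d + n) % 8 = 0 ∨ (n % 8 = 7 ∧ d % 8 = 5))
    (h2e : n % 2 = 0 → d % 8 = 1 ∨ ∃ d1 : ℤ, d = 2 * d1 ∧ (2 * d1 + n) % 16 = 0) :
    d = 1 ∨ d = -n := by
  obtain ⟨hnm, hm4, ht⟩ := hP
  have hn0 : n ≠ 0 := hn.ne_zero
  have hsqN : Squarefree d.natAbs := Int.squarefree_natAbs.2 hsq
  have hTS : d.natAbs.primeFactors ⊆ n.primeFactors := by
    intro p hp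
    have hpp := Nat.prime_of_mem_primeFactors hp
    have hpd : (p : ℤ) ∣ d := Int.natCast_dvd.2 (Nat.dvd_of_mem_primeFactors hp)
    exact Nat.mem_primeFactors.2 ⟨hpp, hpr p hpp hpd, hn0⟩
  have hdn : d ∣ (n : ℤ) := by
    rw [← Int.natAbs_dvd_natAbs, Int.natAbs_natCast,
      ← Nat.prod_primeFactors_of_squarefree hsqN, ← Nat.prod_primeFactors_of_squarefree hn]
    exact prod_dvd_prod_of_subset _ _ _ hTS
  obtain ⟨b, hdb⟩ : ∃ b, -(n : ℤ) = d * b := (dvd_neg.2 hdn)
  have hCd := cd_of hn hdb hl
  have hm : Squarefree m := by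
    refine hn.squarefree_of_dvd ?_
    rw [hnm]
    split_ifs
    · exact Dvd.intro_left _ rfl
    · exact dvd_rfl
  have hS := po_of (odd_of hm4)
  have hM := M_of (r := r) hm hm4
  rw [← hnm] at hM
  by_cases htt : t = true
  · -- the criterion
    have hC : Crit (-(n : ℤ)) := by
      rw [← hM]
      exact crit_neg_of_Gd hS hG (fun h => by rw [htt] at h; simp at h)
        (fun h => by rw [htt] at h; simp at h)
    have hneg : ¬ 0 < -(n : ℤ) := by omega
    have key1 : d % 8 = 1 → d = 1 := fun h =>
      hC d b hdb h (fun h => absurd h hneg) hCd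
    have key2 : b % 8 = 1 → d = -n := fun h => by
      have h1 : b = 1 := hC b d (by rw [hdb, mul_comm]) h (fun h => absurd h hneg)
        (fun q hq hq2 => ⟨(hCd q hq hq2).2, (hCd q hq hq2).1⟩)
      rw [hdb, h1, mul_one]
    rcases Nat.mod_two_eq_zero_or_one n with hpar | hpar
    · rcases h2e hpar with h | ⟨d1, h1, h2⟩
      · exact Or.inl (key1 h)
      · right
        apply key2
        obtain ⟨k, hk⟩ : ∃ k, n = 2 * k := ⟨n / 2, by omega⟩
        have hk2 : k % 2 = 1 := by
          by_contra hcon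
          obtain ⟨j, hj⟩ : ∃ j, k = 2 * j := ⟨k / 2, by omega⟩
          have : 2 * 2 ∣ n := ⟨j, by rw [hk, hj]; ring⟩
          exact Nat.prime_two.prime.not_isUnit (hn 2 this)
        have h3 : d1 * b = -(k : ℤ) := by
          have : (2 : ℤ) * (d1 * b) = 2 * -(k : ℤ) := by
            rw [← mul_assoc, ← h1, ← hdb, hk]
            push_cast
            ring
          linarith
        have h4 : (d1 + k) % 8 = 0 := by
          rw [hk] at h2
          push_cast at h2
          omega
        have h5 : d1 % 2 = 1 := by omega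
        have h6 : (d1 * (b - 1)) % 8 = 0 := by
          have : d1 * (b - 1) = -(d1 + k) := by rw [mul_sub, h3]; ring
          rw [this]
          omega
        have h7 : (8 : ℤ) ∣ b - 1 := by
          have hc : IsCoprime (8 : ℤ) d1 := by
            rw [Int.isCoprime_iff_gcd_eq_one]
            have : Int.gcd 2 d1 = 1 := by
              rw [← Int.isCoprime_iff_gcd_eq_one]
              exact (Int.isCoprime_two_left).2 (Int.odd_iff.2 h5)
            rw [show (8 : ℤ) = 2 ^ 3 by norm_num, ← Int.isCoprime_iff_gcd_eq_one]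
            exact (Int.isCoprime_iff_gcd_eq_one.2 this).pow_left
          exact hc.dvd_of_dvd_mul_left (Int.dvd_of_emod_eq_zero h6)
        omega
    · rcases h2o hpar with h | h | h
      · exact Or.inl (key1 h)
      · right
        apply key2
        have h5 : d % 2 = 1 := by omega
        have h6 : (d * (b - 1)) % 8 = 0 := by
          have : d * (b - 1) = -(d + n) := by rw [mul_sub, ← hdb]; ring
          rw [this]
          omega
        have h7 : (8 : ℤ) ∣ b - 1 := by
          have hc : IsCoprime (8 : ℤ) d := by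
            rw [show (8 : ℤ) = 2 ^ 3 by norm_num]
            exact ((Int.isCoprime_two_left).2 (Int.odd_iff.2 h5)).pow_left
          exact hc.dvd_of_dvd_mul_left (Int.dvd_of_emod_eq_zero h6)
        omega
      · exfalso
        have hr : r = 0 := by
          refine (z2 r).resolve_right fun hr => ?_
          rw [if_pos hr] at hnm
          omega
        have hs : s = 0 := by
          refine (z2 s).resolve_right fun hs => ?_
          rw [if_neg (by rw [hr]; decide)] at hnm
          rw [if_neg (by rw [hs]; decide)] at hm4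
          omega
        have := ht.2 ⟨hr, hs⟩
        rw [htt] at this
        simp at this
  · -- the direct argument
    have htf : t = false := by simpa using htt
    obtain ⟨hr, hs⟩ := ht.1 htf
    subst hr hs
    have e01 : ¬ ((0 : ZMod 2) = 1) := by decide
    rw [if_neg e01] at hnm
    subst hnm
    rw [if_pos rfl] at hm4
    have hD : Dl 0 0 = 1 := by
      unfold Dl
      rw [if_neg e01, if_neg e01, one_mul]
    rw [hD, one_mul] at hM
    have hd4 : d % 4 = 1 := by
      rcases h2o (by omega) with h | h | h <;> omega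
    have hdT := eq_prod_star hd4 hsqN
    have hd0 : d ≠ 0 := by rintro rfl; norm_num at hd4
    set T := d.natAbs.primeFactors with hT
    have hb : b = Dl 0 0 * ∏ p ∈ n.primeFactors \ T, N848.Q.star p := by
      have h1 : d * b = d * (Dl 0 0 * ∏ p ∈ n.primeFactors \ T, N848.Q.star p) := by
        rw [← hdb, ← hM, ← prod_sdiff hTS, ← hdT, hD]
        ring
      exact mul_left_cancel₀ hd0 h1
    have hrows : ∀ q ∈ Vt t n.primeFactors, ∑ p ∈ Vt t n.primeFactors,
        ((if p ∈ T then (1 : ZMod 2) else 0) + (if q ∈ T then 1 else 0)) * sy 0 0 q p = 0 := by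
      intro q hq
      have hq : q ∈ n.primeFactors := by
        rcases mem_Vt.1 hq with ⟨h, _⟩ | hq
        · exact absurd h htt
        · exact hq
      rw [row_eq hS (fun _ => ⟨rfl, rfl⟩) hTS hq]
      have hq' := hS q hq
      split_ifs with hqT
      · rw [← hb, ns_zero]
        refine (hCd q hq'.1 hq'.2).2 ?_
        rw [hdT]
        exact star_dvd_prod hqT
      · rw [← hdT, ns_zero]
        refine (hCd q hq'.1 hq'.2).1 ?_
        rw [hb]
        exact (star_dvd_prod (mem_sdiff.2 ⟨hq, hqT⟩)).mul_left _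
    have h3 := hG (fun p => if p ∈ T then 1 else 0) hrows
    by_cases hTe : T = ∅
    · left
      rw [hdT, hTe, prod_empty]
    · right
      obtain ⟨p₀, hp₀⟩ := Finset.nonempty_iff_ne_empty.2 hTe
      have hV : p₀ ∈ Vt t n.primeFactors := mem_Vt.2 (Or.inr (hTS hp₀))
      have hTS' : T = n.primeFactors := by
        refine Subset.antisymm hTS fun p hp => ?_
        have h4 := h3 p₀ hV p (mem_Vt.2 (Or.inr hp))
        simp only [if_pos hp₀] at h4
        by_contra hpT
        rw [if_neg hpT] at h4
        exact one_ne_zero h4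
      rw [hdT, hTS', hM]

/-- **XM-DUA.** -/
theorem t_DUA (hL : S_LOC) (hA : S_A) (hB : S_B) (hC : S_C) : S_DUA := by
  intro n t r s m hNc hP hG d hd
  obtain ⟨hn, h3, -, -⟩ := hNc
  have hsq : Squarefree d := hd.1
  refine core hn hP hG hsq ?_ ?_ ((hB n hn).2 d hd).1 ((hB n hn).2 d hd).2
  · intro q hq hqd
    rcases (hC n hn).2 d hd q hq hqd with h | h
    · subst h
      by_cases h0 : n % 3 = 0
      · exact Nat.dvd_of_mod_eq_zero h0
      · exact absurd hqd (by
          have := (hA n hn).2 d hd (by omega)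
          exact_mod_cast this)
    · exact h
  · intro l hl hln
    exact (hL n hn l hl hln).2 d hd

end Pool.Agent.U200.XM
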